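import Pool.Agent.X257.AE.Twist
import Pool.Agent.X257.AE.Mean

/-!
# The 2-Selmer groups of quadratic twists at the prefixes of almost every real number

For a real number `α` and a base `b ≥ 2` the integers `t_n = ⌊α b ^ n⌋`, `n = 1, 2, ...`, are the
prefixes of the expansion of `α` in base `b`. We show: for almost every real `α`, for ALL elliptic
curves `E` over `ℚ` with full rational 2-torsion, ALL polynomials `D ≠ 0` with integer coefficients and
all bases `b`, all the moments of the order of the 2-Selmer group of the quadratic twist of `E` by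
`D(t_n)`, `n = 1, 2, ...` (logarithmic means over `n`), are bounded by constants which depend only on
`E`, `D` and the moment, and all but finitely many of these Selmer groups have order at most `n ^ ε`.
For the prefixes of lengths `s_0, s_1, ...` with `s_(j + 1) ≥ 2 s_j` the ordinary means are bounded.
-/

set_option autoImplicit false

namespace Pool.Agent.Results.MP_8cb858_nt.AlmostEveryPrefix

open Finset Polynomial Filter MeasureTheory

open Pool.Agent.TH841.SH.D (Sha)

open Pool.Agent.Y667.SX (Sel2H)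

/-- an elliptic curve `E : y² = x³ + A x + B = (x - e₀) (x - e₁) (x - e₂)` and a polynomial `D` -/
structure Family where
  /-- coefficient -/
  A : ℤ
  /-- coefficient -/
  B : ℤ
  /-- the roots -/
  e : Fin 3 → ℤ
  /-- the twisting polynomial -/
  D : ℤ[X]

namespace Family

/-- `x³ + A x + B = (x - e₀) (x - e₁) (x - e₂)`, the curve is nonsingular, and `D ≠ 0` -/
structure Ok (F : Family) : Prop where
  disc : 4 * F.A ^ 3 + 27 * F.B ^ 2 ≠ 0
  roots : ∀ x : ℤ, x ^ 3 + F.A * x + F.B = (x - F.e 0) * (x - F.e 1) * (x - F.e 2)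
  D_ne : F.D ≠ 0

/-- the quadratic twist of `E` by `D(t)` over `ℚ`: with `d = D(t)`, the curve
`y² = x³ + d² A x + d³ B` -/
noncomputable def tw (F : Family) (t : ℤ) : WeierstrassCurve ℚ :=
  ⟨0, 0, 0, (((F.D.eval t) ^ 2 * F.A : ℤ) : ℚ), (((F.D.eval t) ^ 3 * F.B : ℤ) : ℚ)⟩

open Classical in
/-- The order of the 2-Selmer group `Sel₂ = ker (H¹(ℚ, W[2]) → ∏ H¹(ℚ_v, W))` (`Sel2H`, classes of
continuous cocycles) of the twist `W` of `E` by `D(t)`, if `D(t) ≠ 0`; zero if `D(t) = 0`. -/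
noncomputable def sel (F : Family) (t : ℤ) : ℕ :=
  if F.D.eval t = 0 then 0 else Nat.card (Sel2H (F.tw t))

end Family

/-- the logarithmic means of `f(1), f(2), ...` have an upper limit at most `c` -/
def LogMeanLe (f : ℕ → ℝ) (c : ℝ) : Prop := ∀ ε : ℝ, 0 < ε → ∀ᶠ x : ℕ in atTop,
  ∑ n ∈ Icc 1 x, f n / (n : ℝ) ≤ (c + ε) * Real.log x

/-- the means of `f(0), f(1), ...` have an upper limit at most `c` -/
def MeanLe (f : ℕ → ℝ) (c : ℝ) : Prop := ∀ ε : ℝ, 0 < ε → ∀ᶠ x : ℕ in atTop,
  ∑ j ∈ range x, f j ≤ (c + ε) * x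

/-! ### Proof -/

instance : Countable Family := by
  have h : Function.Injective (fun F : Family => (F.A, F.B, F.e, F.D)) := by
    rintro ⟨A, B, e, D⟩ ⟨A', B', e', D'⟩ h
    simp only [Prod.mk.injEq] at h
    obtain ⟨rfl, rfl, rfl, rfl⟩ := h
    rfl
  exact h.countable

theorem sel_eq (F : Family) (t : ℤ) : F.sel t = Pool.Agent.X257.AE.ord F.A F.B F.D t := rfl

theorem exC (F : Family) (k : ℕ) : ∃ C : ℝ, F.Ok → 1 ≤ k →
    Pool.Agent.X257.AE.Avg (fun t => (F.sel t : ℝ) ^ k) C 1 := by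
  by_cases hF : F.Ok ∧ 1 ≤ k
  · obtain ⟨C, hC⟩ := Pool.Agent.X257.AE.avg_ord hF.1.disc hF.1.roots F.D hF.1.D_ne k hF.2
    exact ⟨C, fun _ _ => hC⟩
  · exact ⟨0, fun h1 h2 => absurd ⟨h1, h2⟩ hF⟩

/-- **Theorem.** (1) For the elliptic curves `E : y² = (x - e₀) (x - e₁) (x - e₂) = x³ + A x + B` over `ℚ`
with integers `e_i`, the polynomials `D ≠ 0` with integer coefficients and the `t` with `D(t) ≠ 0`, the
2-Selmer group of the twist of `E` by `D(t)` is finite of order `2 ^ (rank + 2) * #Ш[2]`. There are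
constants `C(E, D, k)` such that: (2) for almost every real `α`, for all such `E` and `D` and all bases
`b ≥ 2`, for all `k ≥ 1` the logarithmic means of the `k`-th powers of the orders of the 2-Selmer groups
of the twists of `E` by `D(⌊α b ^ n⌋)`, `n = 1, 2, ...`, have an upper limit at most `C(E, D, k)`, and
for all `ε > 0` these orders are at most `n ^ ε` for all large `n`; (3) for all sequences `s` with
`s_0 ≥ 1`, `s_(j + 1) ≥ 2 s_j`, for almost every real `α`, for all `E`, `D`, `b ≥ 2` and `k ≥ 1` the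
means of the `k`-th powers for the twists by `D(⌊α b ^ s_j⌋)`, `j = 0, 1, ...`, have an upper limit at
most `C(E, D, k)`. -/
theorem result :
    (∀ F : Family, F.Ok → ∀ t : ℤ, F.D.eval t ≠ 0 → Finite (Sel2H (F.tw t)) ∧
      Finite {x : Sha (F.tw t) // x + x = 0} ∧
      F.sel t = 2 ^ (Module.finrank ℤ (F.tw t).toAffine.Point + 2) *
        Nat.card {x : Sha (F.tw t) // x + x = 0}) ∧
    ∃ C : Family → ℕ → ℝ,
      (∀ᵐ α : ℝ, ∀ F : Family, F.Ok → ∀ b : ℕ, 2 ≤ b →
        (∀ k : ℕ, 1 ≤ k → LogMeanLe (fun n => (F.sel ⌊α * (b : ℝ) ^ n⌋ : ℝ) ^ k) (C F k)) ∧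
        ∀ ε : ℝ, 0 < ε → ∀ᶠ n : ℕ in atTop, (F.sel ⌊α * (b : ℝ) ^ n⌋ : ℝ) ≤ (n : ℝ) ^ ε) ∧
      ∀ s : ℕ → ℕ, 1 ≤ s 0 → (∀ j, 2 * s j ≤ s (j + 1)) →
        ∀ᵐ α : ℝ, ∀ F : Family, F.Ok → ∀ b : ℕ, 2 ≤ b → ∀ k : ℕ, 1 ≤ k →
          MeanLe (fun j => (F.sel ⌊α * (b : ℝ) ^ s j⌋ : ℝ) ^ k) (C F k) := by
  refine ⟨fun F hF t ht => ?_, ?_⟩
  · obtain ⟨h1, h2, h3, h4⟩ := Pool.Agent.X257.AE.sel_one hF.disc hF.roots ht
    refine ⟨h1, h3, ?_⟩
    rw [sel_eq]
    unfold Pool.Agent.X257.AE.ord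
    rw [if_neg ht]
    exact h4.symm
  · choose C hC using exC
    refine ⟨C, ?_, fun s hs0 hs => ?_⟩
    · rw [ae_all_iff]
      intro F
      by_cases hF : F.Ok
      swap
      · exact Eventually.of_forall fun α h => absurd h hF
      simp only [hF, forall_true_left]
      have h := Pool.Agent.X257.AE.ae_moments (f := fun t => (F.sel t : ℝ))
        (fun t => Nat.cast_nonneg _) (C F) (M0 := 1) (fun k hk => hC F k hF hk)
      filter_upwards [h] with α hα b hb
      obtain ⟨h1, h2⟩ := hα b hb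
      refine ⟨fun k hk ε hε => ?_, fun ε hε => ?_⟩
      · filter_upwards [h1 k hk ε hε] with x hx
        exact hx
      · filter_upwards [h2 ε hε] with n hn
        exact hn
    · rw [ae_all_iff]
      intro F
      by_cases hF : F.Ok
      swap
      · exact Eventually.of_forall fun α h => absurd h hF
      simp only [hF, forall_true_left]
      have h := Pool.Agent.X257.AE.ae_moments_seq (f := fun t => (F.sel t : ℝ))
        (fun t => Nat.cast_nonneg _) (C F) (M0 := 1) (fun k hk => hC F k hF hk) s hs0 hs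
      filter_upwards [h] with α hα b hb k hk ε hε
      filter_upwards [hα b hb k hk ε hε] with x hx
      exact hx

end Pool.Agent.Results.MP_8cb858_nt.AlmostEveryPrefix
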