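import Mathlib
import Pool.Agent.X253.CF.AvG

/-!
# The `3`-Selmer groups over `ℚ(√-3)` of all the cubic twists `y² + D y = x³`

`K` is the field of third roots of unity, `E_D : y² + D y = x³`, and `D` runs through the cube-free
`D = 1` modulo `3` of `𝓞 K` whose norm is not `1` modulo `9`, ordered by the norm; `N(X)` is the number
of the `D` of norm at most `X`, which is at least `c X`.  The dimension `d` of
`Sel₃(E_D / K) = ker (H¹(K, E_D[3]) → ∏_v H¹(K_v, E_D))` over the field with three elements is at least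
`1`, because of the rational points of order `3`.  With
`prob r = ∏_{i ≥ 0} (1 - 3^{-(2 i + 1)}) / ((3 - 1) (9 - 1) ⋯ (3 ^ r - 1))` (these numbers sum to one)
and `mu = ∑ r prob r = 0.404...`, for all large `X`:

* the number of the `D` of norm at most `X` with `d = 1` is `prob 0 N(X)` up to
  `X (log X) ^ (-1 / 200)`, so they have a density, `prob 0 = 0.639...`;
* for every `R` the number of the `D` with `d > 2 R + 1` is at most
  `(1 - prob 0 - ⋯ - prob R) N(X) + X (log X) ^ (-1 / 200)`;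
* for every `R` the number of the `D` with `d ≥ R + 1` is at least
  `(1 - prob 0 - ⋯ - prob (R - 1)) N(X) - X (log X) ^ (-1 / 200)`;
* the mean of `d` over the `D` of norm at most `X` is between `1 + mu - ε` and `1 + 2 mu + ε`, so
  between `1.403` and `1.81`.

The proof: `r + 1 ≤ d ≤ 2 r + 1`, where `3 ^ r` is the order of the kernel of `√-3` on the
`3^∞`-Selmer group (`Pool/Agent/X253/CF/Sel3.lean`), and `3 ^ (r + 1)` is the number of the elements of
the kernel of the Laplacian with weights of the cubic residue symbols of the prime divisors of `D`. Its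
distribution is determined, with an error term which is uniform in `r`, in `Pool/Agent/X253/CF`
(project CF; for the squarefree `D` it is the subject of `MP_a3f657_nt.CubicTwistsThreeInfinity` of
the starting library).
-/

set_option autoImplicit false

namespace Pool.Agent.Results.MP_8cb858_nt.CubicTwistsSelmerLaw

open NumberField WeierstrassCurve
open Pool.Agent.TH841.SH.D (Pt act Gal Coch)
open Pool.Agent.TH841.NF.D (IsShaCoc shaCoc)
open scoped Classical

variable {K : Type} [Field K] [NumberField K]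

/-- The curve `E_D : y² + D y = x³`. -/
def curve {K : Type} [Field K] (D : K) : WeierstrassCurve K := ⟨0, 0, D, 0, 0⟩

/-- The group of the continuous cocycles of the absolute Galois group of `K` with values in
`E_D[3]` that are coboundaries in `E_D` at all the places of `K`. -/
def Cocycles (D : K) : AddSubgroup (Coch (curve D)) where
  carrier := {f | IsShaCoc (curve D) f ∧ ∀ σ, 3 • f σ = 0}
  zero_mem' := (Pool.Agent.X253.CF.S3.coc3 D).zero_mem'
  add_mem' := (Pool.Agent.X253.CF.S3.coc3 D).add_mem'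
  neg_mem' := (Pool.Agent.X253.CF.S3.coc3 D).neg_mem'

/-- The group of the coboundaries of the points of `E_D[3]`. -/
def Coboundaries (D : K) : AddSubgroup (Coch (curve D)) where
  carrier := {f | ∃ P : Pt (curve D) (AlgebraicClosure K), 3 • P = 0 ∧
    ∀ σ : Gal K, f σ = act (curve D) σ.toAlgHom P - P}
  zero_mem' := (Pool.Agent.X253.CF.S3.cob3 D).zero_mem'
  add_mem' := (Pool.Agent.X253.CF.S3.cob3 D).add_mem'
  neg_mem' := (Pool.Agent.X253.CF.S3.cob3 D).neg_mem'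

/-- The `3`-Selmer group of `E_D` over `K`: the kernel of `H¹(K, E_D[3]) → ∏ H¹(K_v, E_D)`. -/
def Sel (D : K) : Type := Cocycles D ⧸ (Coboundaries D).addSubgroupOf (Cocycles D)

/-- The dimension of `Sel₃(E_D / K)` over the field with three elements: the logarithm to the base
three of its order. -/
noncomputable def dim (D : K) : ℕ := Nat.log 3 (Nat.card (Sel D))

/-- `D` is cube-free and `1` modulo `3`, and its norm is not `1` modulo `9`. -/
def InClass (D : 𝓞 K) : Prop :=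
  (3 : 𝓞 K) ∣ D - 1 ∧ (∀ p : 𝓞 K, Prime p → ¬ p ^ 3 ∣ D) ∧ ¬ (9 : ℤ) ∣ Algebra.norm ℤ D - 1

/-- The `D` of the class of norm at most `X`. -/
def upTo (K : Type) [Field K] [NumberField K] (X : ℕ) : Set (𝓞 K) :=
  {D : 𝓞 K | Algebra.norm ℤ D ≤ X ∧ InClass D}

/-- `∏_{i ≥ 0} (1 - 3^{-(2 i + 1)}) / ((3 - 1) (9 - 1) ⋯ (3 ^ r - 1))`. -/
noncomputable def prob (r : ℕ) : ℝ :=
  (∏' i : ℕ, (1 - (1 / 3 : ℝ) ^ (2 * i + 1))) / ∏ i ∈ Finset.range r, ((3 : ℝ) ^ (i + 1) - 1)

/-- `∑ r prob r`. -/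
noncomputable def mu : ℝ := ∑' r : ℕ, (r : ℝ) * prob r

/-- The error term `X (log X) ^ (-1 / 200)`. -/
noncomputable def err (X : ℕ) : ℝ := (Real.log X) ^ (-(1 / 200) : ℝ) * X

/-- The mean of the dimension of `Sel₃(E_D / K)` over the `D` of the class of norm at most `X`. -/
noncomputable def mean (K : Type) [Field K] [NumberField K] (X : ℕ) : ℝ :=
  (∑ᶠ D ∈ upTo K X, (dim (D : K) : ℝ)) / ((upTo K X).ncard : ℝ)

/-- **The `3`-Selmer groups of the cubic twists.** -/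
theorem result (K : Type) [Field K] [NumberField K] [IsCyclotomicExtension {3} ℚ K] :
    (∃ c : ℝ, 0 < c ∧ ∃ X₀ : ℕ, ∀ X : ℕ, X₀ ≤ X → c * X ≤ ((upTo K X).ncard : ℝ)) ∧
    (∀ X : ℕ, (upTo K X).Finite) ∧
    (∀ D : 𝓞 K, InClass D → 1 ≤ dim (D : K) ∧ Nat.card (Sel (D : K)) = 3 ^ dim (D : K)) ∧
    (∃ X₀ : ℕ, ∀ X : ℕ, X₀ ≤ X →
      |({D : 𝓞 K | Algebra.norm ℤ D ≤ X ∧ InClass D ∧ dim (D : K) = 1}.ncard : ℝ) -
        prob 0 * ((upTo K X).ncard : ℝ)| ≤ err X) ∧
    (∃ X₀ : ℕ, ∀ X : ℕ, X₀ ≤ X → ∀ R : ℕ,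
      ({D : 𝓞 K | Algebra.norm ℤ D ≤ X ∧ InClass D ∧ 2 * R + 1 < dim (D : K)}.ncard : ℝ) ≤
        (1 - ∑ r ∈ Finset.range (R + 1), prob r) * ((upTo K X).ncard : ℝ) + err X) ∧
    (∃ X₀ : ℕ, ∀ X : ℕ, X₀ ≤ X → ∀ R : ℕ,
      (1 - ∑ r ∈ Finset.range R, prob r) * ((upTo K X).ncard : ℝ) - err X ≤
        ({D : 𝓞 K | Algebra.norm ℤ D ≤ X ∧ InClass D ∧ R + 1 ≤ dim (D : K)}.ncard : ℝ)) ∧
    (∀ ε : ℝ, 0 < ε → ∃ X₀ : ℕ, ∀ X : ℕ, X₀ ≤ X →
      1 + mu - ε ≤ mean K X ∧ mean K X ≤ 1 + 2 * mu + ε) ∧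
    (∀ r : ℕ, 0 < prob r) ∧ HasSum prob 1 ∧ 0.639 < prob 0 ∧ prob 0 < 0.6391 ∧
    0.4039 < mu ∧ mu < 0.405 := by
  obtain ⟨ω, hω⟩ : ∃ ω : K, ω ^ 2 + ω + 1 = 0 := by
    obtain ⟨⟨j, hj⟩, -⟩ := Pool.Agent.Y455.CTK.jex K
    refine ⟨((j Pool.Agent.Y692.QS.w : 𝓞 K) : K), ?_⟩
    have hww : (Pool.Agent.Y692.QS.w : Pool.Agent.Y692.QS.Ei) ^ 2 + Pool.Agent.Y692.QS.w + 1 = 0 := by
      decide
    have h : (j Pool.Agent.Y692.QS.w) ^ 2 + j Pool.Agent.Y692.QS.w + 1 = 0 := by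
      rw [← map_pow, ← map_one j, ← map_add, ← map_add, hww, map_zero]
    have h' := congrArg (fun x : 𝓞 K => (x : K)) h
    simpa using h'
  obtain ⟨h1, -, -, -, h5, h6, h7⟩ := Pool.Agent.X253.CF.finalCF K ω hω
  obtain ⟨g1, -⟩ := Pool.Agent.X253.CF.selLaw K ω hω
  obtain ⟨X₀, hX₀⟩ := Filter.eventually_atTop.1 (Pool.Agent.X253.CF.selRate K ω hω)
  obtain ⟨S, hS, hone, hlim⟩ := Pool.Agent.X253.CF.selMean K ω hω
  have hup : ∀ X : ℕ, upTo K X = ((S X : Finset (𝓞 K)) : Set (𝓞 K)) := hS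
  have key : ∀ D : 𝓞 K, InClass D →
      1 ≤ dim (D : K) ∧ Nat.card (Sel (D : K)) = 3 ^ dim (D : K) := by
    intro D hD
    obtain ⟨d, hd1, hd⟩ : ∃ d : ℕ, 1 ≤ d ∧ Nat.card (Sel (D : K)) = 3 ^ d := g1 D hD
    have : dim (D : K) = d := by
      unfold dim
      rw [hd, Nat.log_pow (by norm_num)]
    rw [this]
    exact ⟨hd1, hd⟩
  refine ⟨h1, fun X => ?_, key, ⟨X₀, fun X hX => ?_⟩, ⟨X₀, fun X hX R => ?_⟩,
    ⟨X₀, fun X hX R => ?_⟩, fun ε hε => ?_,
    fun r => Pool.Agent.Y703.XL.cr_pos Pool.Agent.Y703.XL.t_C9 r, h7, h5, h6,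
    Pool.Agent.X253.CF.mu_gt, Pool.Agent.X253.CF.mu_lt⟩
  · rw [hup X]
    exact (S X).finite_toSet
  · have e : {D : 𝓞 K | Algebra.norm ℤ D ≤ X ∧ InClass D ∧ dim (D : K) = 1} =
        {D : 𝓞 K | Algebra.norm ℤ D ≤ X ∧ InClass D ∧ Nat.card (Sel (D : K)) = 3} := by
      ext D
      refine and_congr_right fun _ => and_congr_right fun hD => ?_
      rw [(key D hD).2]
      constructor
      · intro h
        rw [h, pow_one]
      · intro h
        exact Nat.pow_right_injective (le_refl 2 |>.trans (by norm_num : 2 ≤ 3))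
          (h.trans (pow_one 3).symm)
    rw [e]
    exact (hX₀ X hX).1
  · have e : {D : 𝓞 K | Algebra.norm ℤ D ≤ X ∧ InClass D ∧ 2 * R + 1 < dim (D : K)} =
        {D : 𝓞 K | Algebra.norm ℤ D ≤ X ∧ InClass D ∧
          3 ^ (2 * R + 1) < Nat.card (Sel (D : K))} := by
      ext D
      refine and_congr_right fun _ => and_congr_right fun hD => ?_
      rw [(key D hD).2]
      exact (Nat.pow_lt_pow_iff_right (by norm_num)).symm
    rw [e]
    exact (hX₀ X hX).2.1 R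
  · have e : {D : 𝓞 K | Algebra.norm ℤ D ≤ X ∧ InClass D ∧ R + 1 ≤ dim (D : K)} =
        {D : 𝓞 K | Algebra.norm ℤ D ≤ X ∧ InClass D ∧
          3 ^ (R + 1) ≤ Nat.card (Sel (D : K))} := by
      ext D
      refine and_congr_right fun _ => and_congr_right fun hD => ?_
      rw [(key D hD).2]
      exact (Nat.pow_le_pow_iff_right (by norm_num)).symm
    rw [e]
    exact (hX₀ X hX).2.2 R
  · obtain ⟨c, hc, X₁, hX₁⟩ := h1
    obtain ⟨f, hf⟩ : ∃ f : 𝓞 K → ℕ, f = fun D => Pool.Agent.X253.CF.dimK ω D := ⟨_, rfl⟩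
    have hf1 : ∀ D : 𝓞 K, InClass D → f D + 1 ≤ dim (D : K) ∧ dim (D : K) ≤ 2 * f D + 1 := by
      rw [hf]
      exact hone
    have hlim' : Filter.Tendsto (fun X : ℕ => (∑ D ∈ S X, (f D : ℝ)) / ((S X).card : ℝ))
        Filter.atTop (nhds mu) := by
      refine hlim.congr fun X => ?_
      rw [hf]
      simp only [pow_one]
    obtain ⟨X₂, hX₂⟩ := Filter.eventually_atTop.1 ((hlim'.eventually
      (gt_mem_nhds (show mu < mu + ε / 2 by linarith))).and
      (hlim'.eventually (lt_mem_nhds (show mu - ε < mu by linarith))))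
    refine ⟨max (max X₁ X₂) 1, fun X hX => ?_⟩
    have hXX : X₁ ≤ X ∧ X₂ ≤ X ∧ 1 ≤ X := by
      refine ⟨?_, ?_, ?_⟩ <;> omega
    obtain ⟨k1, k2⟩ := hX₂ X hXX.2.1
    have hpos : (0 : ℝ) < ((S X).card : ℝ) := by
      have : c * X ≤ ((upTo K X).ncard : ℝ) := hX₁ X hXX.1
      rw [hup X, Set.ncard_coe_finset] at this
      have h1X : (0 : ℝ) < X := by exact_mod_cast hXX.2.2
      exact lt_of_lt_of_le (by positivity) this
    have hmean : mean K X = (∑ D ∈ S X, (dim (D : K) : ℝ)) / ((S X).card : ℝ) := by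
      unfold mean
      rw [hup X, finsum_mem_coe_finset, Set.ncard_coe_finset]
    have hmem : ∀ D ∈ S X, InClass D := by
      intro D hD
      have : D ∈ upTo K X := by
        rw [hup X]
        exact hD
      exact this.2
    have l1 : ∑ D ∈ S X, ((f D : ℝ) + 1) ≤ ∑ D ∈ S X, (dim (D : K) : ℝ) :=
      Finset.sum_le_sum fun D hD => by exact_mod_cast (hf1 D (hmem D hD)).1
    have l2 : ∑ D ∈ S X, (dim (D : K) : ℝ) ≤ ∑ D ∈ S X, (2 * (f D : ℝ) + 1) :=
      Finset.sum_le_sum fun D hD => by exact_mod_cast (hf1 D (hmem D hD)).2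
    rw [Finset.sum_add_distrib, Finset.sum_const, nsmul_eq_mul, mul_one] at l1 l2
    rw [← Finset.mul_sum] at l2
    rw [lt_div_iff₀ hpos] at k2
    rw [div_lt_iff₀ hpos] at k1
    rw [hmean, le_div_iff₀ hpos, div_le_iff₀ hpos]
    constructor <;> nlinarith

end Pool.Agent.Results.MP_8cb858_nt.CubicTwistsSelmerLaw
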