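import Mathlib
import Pool.Agent.X217.QB.Fin

/-!
# The 2-Selmer groups over a quadratic field of the curves over `ℚ` with full rational 2-torsion

Let `K = ℚ(√D)` be a fixed quadratic field. Every elliptic curve over `ℚ` with full rational
2-torsion is isomorphic to a curve `E : y² = x (x - A) (x - B)` with positive integers `A ≠ B`. When
`A`, `B` run through the integers from `1` to `X`, the dimension of the 2-Selmer group of `E` over
`ℚ` is bounded in probability. Over `K` it is not: it is, in distribution, at least as large as a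
Gaussian variable of mean and variance `(3 / 2) log log X`. So the law of Poonen and Rains for
`F = K` fails badly in the family of the base changes of these curves.

The reason: the classes of `H¹(ℚ, E[2])` which become locally trivial in `E` over `K`. Each prime of
multiplicative reduction gives one generator, and only those which split in `K` give a condition.
-/

set_option autoImplicit false

namespace Pool.Agent.Results.MP_8cb858_nt.QuadraticBaseChange

open Finset Filter Topology ProbabilityTheory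

/-- The algebra `L ⊗ ℚ(√D)`. For `L = ℚ` this is the quadratic field `ℚ(√D)` if `D` is not a
square; for `L = ℝ` and `L = ℚ_p` it is the product of the completions of `ℚ(√D)` at the infinite
places and at the places above `p`. -/
abbrev KL (L : Type) [Field L] (D : ℤ) : Type := QuadraticAlgebra L (D : L) 0

/-- the map of `ℚ(√D)` to `L ⊗ ℚ(√D)` -/
def inc (L : Type) [Field L] [CharZero L] (D : ℤ) (z : KL ℚ D) : KL L D :=
  ⟨(z.re : L), (z.im : L)⟩

/-- the roots -/
def e (A B : ℤ) : Fin 3 → ℤ := ![0, A, B]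

/-- The local condition: there is a point `(x, y)` of `y² = x (x - A) (x - B)` over `L ⊗ ℚ(√D)`, `y`
invertible, such that `x`, `x - A`, `x - B` are `d 0`, `d 1`, `d 2` up to squares. (Every class modulo
doubles of the points over a completion contains a point with `y ≠ 0`.) -/
def Local (L : Type) [Field L] [CharZero L] (D A B : ℤ) (d : Fin 3 → KL ℚ D) : Prop :=
  ∃ x y : KL L D, IsUnit y ∧ y ^ 2 = x * (x - (A : KL L D)) * (x - (B : KL L D)) ∧
    ∀ i, IsSquare ((x - (e A B i : KL L D)) * inc L D (d i))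

/-- the squares of `ℚ(√D)ˣ` -/
def squares (D : ℤ) : Subgroup (KL ℚ D)ˣ := (powMonoidHom 2 : (KL ℚ D)ˣ →* (KL ℚ D)ˣ).range

/-- The 2-Selmer group of `y² = x (x - A) (x - B)` over `K = ℚ(√D)`. As all the points of order two
are rational, `H¹(K, E[2])` is the group of the triples of classes of `Kˣ` modulo squares with
product one. -/
def Sel2 (D A B : ℤ) : Set (Fin 3 → (KL ℚ D)ˣ ⧸ squares D) :=
  {c | ∃ d : Fin 3 → (KL ℚ D)ˣ, (∀ i, c i = QuotientGroup.mk (d i)) ∧
    d 0 * d 1 * d 2 ∈ squares D ∧ Local ℝ D A B (fun i => (d i : KL ℚ D)) ∧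
    ∀ (p : ℕ) [Fact p.Prime], Local ℚ_[p] D A B (fun i => (d i : KL ℚ D))}

/-- the distribution function of the standard Gaussian variable -/
noncomputable def Φ (z : ℝ) : ℝ := (gaussianReal 0 1).real (Set.Iic z)

lemma inc_int (L : Type) [Field L] [CharZero L] (D m : ℤ) :
    inc L D ((m : ℤ) : KL ℚ D) = ((m : ℤ) : KL L D) := by
  unfold inc
  ext
  · show ((((m : ℤ) : KL ℚ D).re : ℚ) : L) = ((m : ℤ) : KL L D).re
    rw [QuadraticAlgebra.re_intCast, QuadraticAlgebra.re_intCast]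
    push_cast
    rfl
  · show ((((m : ℤ) : KL ℚ D).im : ℚ) : L) = ((m : ℤ) : KL L D).im
    rw [QuadraticAlgebra.im_intCast, QuadraticAlgebra.im_intCast]
    push_cast
    rfl

lemma unit_int (L : Type) [Field L] [CharZero L] (D : ℤ) {m : ℤ} (hm : m ≠ 0) :
    IsUnit ((m : ℤ) : KL L D) := by
  have h : (m : L) ≠ 0 := by exact_mod_cast hm
  have := h.isUnit.map (algebraMap L (KL L D))
  rwa [map_intCast] at this

lemma loc_of {L : Type} [Field L] [CharZero L] {D A B : ℤ} {d : Fin 3 → ℤ}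
    (h : Pool.Agent.X217.QB.Lc (KL L D) (Pool.Agent.X217.QB.ee A B) d) {N : ℤ} (hN : N ≠ 0)
    (hd : d 0 * d 1 * d 2 = N ^ 2) : Local L D A B (fun i => ((d i : ℤ) : KL ℚ D)) := by
  obtain ⟨x, hx⟩ := h
  choose w hw1 hw2 using hx
  obtain ⟨Ni, hNi⟩ := (unit_int L D hN).exists_right_inv
  have hNiu : IsUnit Ni := IsUnit.of_mul_eq_one _ (by rw [mul_comm]; exact hNi)
  refine ⟨x, w 0 * w 1 * w 2 * Ni, (((hw1 0).mul (hw1 1)).mul (hw1 2)).mul hNiu, ?_, fun i => ?_⟩
  · have e0 := hw2 0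
    have e1 := hw2 1
    have e2 := hw2 2
    have f0 : Pool.Agent.X217.QB.ee A B 0 = 0 := rfl
    have f1 : Pool.Agent.X217.QB.ee A B 1 = A := rfl
    have f2 : Pool.Agent.X217.QB.ee A B 2 = B := rfl
    rw [f0, Int.cast_zero, sub_zero] at e0
    rw [f1] at e1
    rw [f2] at e2
    have hdc : ((d 0 : ℤ) : KL L D) * ((d 1 : ℤ) : KL L D) * ((d 2 : ℤ) : KL L D) =
        ((N : ℤ) : KL L D) ^ 2 := by
      rw [← Int.cast_mul, ← Int.cast_mul, hd, Int.cast_pow]
    calc (w 0 * w 1 * w 2 * Ni) ^ 2 = w 0 ^ 2 * w 1 ^ 2 * w 2 ^ 2 * Ni ^ 2 := by ring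
      _ = x * (x - (A : KL L D)) * (x - (B : KL L D)) *
          (((d 0 : ℤ) : KL L D) * ((d 1 : ℤ) : KL L D) * ((d 2 : ℤ) : KL L D)) * Ni ^ 2 := by
          rw [← e0, ← e1, ← e2]
          ring
      _ = x * (x - (A : KL L D)) * (x - (B : KL L D)) * (((N : ℤ) : KL L D) * Ni) ^ 2 := by
          rw [hdc]
          ring
      _ = _ := by rw [hNi, one_pow, mul_one]
  · refine ⟨w i, ?_⟩
    show (x - ((e A B i : ℤ) : KL L D)) * inc L D ((d i : ℤ) : KL ℚ D) = w i * w i
    rw [inc_int, ← sq]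
    exact hw2 i

/-- many elements -/
lemma many {D A B : ℤ} {k : ℝ} (h : Pool.Agent.X217.QB.Big D k A B) :
    ∃ m : ℕ, k < m ∧ (2 ^ m : ℕ∞) ≤ (Sel2 D A B).encard := by
  classical
  obtain ⟨G, hG, hGD, V, hV, hloc⟩ := h
  refine ⟨Module.finrank (ZMod 2) V, hV, ?_⟩
  have hun : ∀ (ε : G → ZMod 2) (i : Fin 3),
      IsUnit ((Pool.Agent.X217.QB.dd A B G ε i : ℤ) : KL ℚ D) :=
    fun ε i => unit_int ℚ D (Pool.Agent.X217.QB.dd_pos hG ε i).ne'
  let un : (G → ZMod 2) → Fin 3 → (KL ℚ D)ˣ := fun ε i => (hun ε i).unit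
  have hunv : ∀ ε i, ((un ε i : (KL ℚ D)ˣ) : KL ℚ D) =
      ((Pool.Agent.X217.QB.dd A B G ε i : ℤ) : KL ℚ D) := fun ε i => (hun ε i).unit_spec
  have hmem : ∀ ε : V, (fun i => (QuotientGroup.mk (un ε.1 i) : (KL ℚ D)ˣ ⧸ squares D)) ∈
      Sel2 D A B := by
    intro ε
    set N : ℤ := ∏ k : G, if ε.1 k = 1 then ((k : ℕ) : ℤ) else 1 with hNdef
    have hN : N ≠ 0 := by
      rw [hNdef]
      refine prod_ne_zero_iff.2 fun k _ => ?_
      have := (hG k k.2).ne_zero
      split_ifs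
      · exact_mod_cast this
      · norm_num
    have hprod := Pool.Agent.X217.QB.prod_dd (A := A) (B := B) ε.1
    refine ⟨un ε.1, fun i => rfl, ?_, ?_, ?_⟩
    · refine ⟨(unit_int ℚ D hN).unit, ?_⟩
      apply Units.ext
      show (((unit_int ℚ D hN).unit ^ 2 : (KL ℚ D)ˣ) : KL ℚ D) = _
      rw [Units.val_pow_eq_pow_val, IsUnit.unit_spec, Units.val_mul, Units.val_mul, hunv, hunv,
        hunv, ← Int.cast_mul, ← Int.cast_mul, hprod, Int.cast_pow]
    · have h1 := (hloc ε.1 ε.2).1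
      have h2 := loc_of (L := ℝ) (D := D) (h1.map (algebraMap ℝ (KL ℝ D))) hN hprod
      simpa only [hunv] using h2
    · intro p hp
      have h2 := loc_of (L := ℚ_[p]) (D := D) ((hloc ε.1 ε.2).2 p) hN hprod
      simpa only [hunv] using h2
  let F : V → Sel2 D A B := fun ε => ⟨_, hmem ε⟩
  have hF : Function.Injective F := by
    intro ε ε' hεε
    apply Subtype.ext
    refine Pool.Agent.X217.QB.inj (A := A) (B := B) (D := D) hG hGD fun l => ?_
    have h1 : (QuotientGroup.mk (un ε.1 l) : (KL ℚ D)ˣ ⧸ squares D) =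
        QuotientGroup.mk (un ε'.1 l) := congrFun (congrArg Subtype.val hεε) l
    rw [QuotientGroup.eq] at h1
    obtain ⟨z, hz⟩ := h1
    refine ⟨(z : KL ℚ D), ?_⟩
    have h2 : un ε'.1 l = un ε.1 l * z ^ 2 := by
      have h3 : z ^ 2 = (un ε.1 l)⁻¹ * un ε'.1 l := hz
      rw [h3, mul_inv_cancel_left]
    have h4 := congrArg (fun u : (KL ℚ D)ˣ => (u : KL ℚ D)) h2
    simp only [Units.val_mul, Units.val_pow_eq_pow_val, hunv] at h4
    exact h4
  have h1 : ENat.card V ≤ ENat.card (Sel2 D A B) := ENat.card_le_card_of_injective hF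
  have h2 : ENat.card V = (2 ^ Module.finrank (ZMod 2) V : ℕ∞) := by
    rw [ENat.card_eq_coe_natCard, Module.natCard_eq_pow_finrank (K := ZMod 2), Nat.card_zmod]
    push_cast
    rfl
  rw [h2] at h1
  exact h1

lemma Sq_eq (X : ℕ) : Pool.Agent.X217.EK.Sq X = Icc (1 : ℤ) X ×ˢ Icc (1 : ℤ) X := by
  have e2 : Ioc (0 : ℤ) (0 + (X : ℤ)) = Icc (1 : ℤ) X := by
    ext t
    rw [mem_Ioc, mem_Icc]
    omega
  unfold Pool.Agent.X217.EK.Sq
  rw [e2]

open Classical in
/-- **Theorem.** Let `D` be an integer which is not a square, `K = ℚ(√D)`, `z` real and `ε > 0`. For all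
large `X`, with at most `(Φ(z) + ε) X²` exceptions, all the pairs `(A, B)` of integers from `1` to `X`
with `A ≠ B` satisfy: the 2-Selmer group of `y² = x (x - A) (x - B)` over `K` has at least `2 ^ k`
elements for an integer `k > (3 / 2) log log X + z √((3 / 2) log log X)`. -/
theorem result (D : ℤ) (hD : ¬ IsSquare D) (z ε : ℝ) (hε : 0 < ε) : ∀ᶠ X : ℕ in atTop,
    (((Icc (1 : ℤ) X ×ˢ Icc (1 : ℤ) X).filter (fun t : ℤ × ℤ => t.1 ≠ t.2 ∧
      ¬ ∃ k : ℕ, 3 / 2 * Real.log (Real.log X) + z * √(3 / 2 * Real.log (Real.log X)) < k ∧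
        (2 ^ k : ℕ∞) ≤ (Sel2 D t.1 t.2).encard)).card : ℝ) ≤ (Φ z + ε) * (X : ℝ) ^ 2 := by
  filter_upwards [Pool.Agent.X217.QB.main hD z hε] with X hX
  refine le_trans (Nat.cast_le.2 (card_le_card ?_)) hX
  rw [Sq_eq]
  intro t ht
  rw [mem_filter] at ht ⊢
  refine ⟨ht.1, ht.2.1, fun h => ht.2.2 ?_⟩
  exact many h

end Pool.Agent.Results.MP_8cb858_nt.QuadraticBaseChange
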